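import Mathlib

/-!
Project SR, S_BOCH, part A: the truncated Fourier integrals of a positive definite function are
nonnegative.  (helper474, for helper748.)
-/

open Finset Filter Topology MeasureTheory

set_option autoImplicit false
set_option linter.all false

namespace Pool.Agent.Y474.SR.Boch

/-- Riemann sums of a continuous function converge -/
theorem riemann_tendsto (h : ℝ → ℝ) (hc : Continuous h) :
    Tendsto (fun n : ℕ => (∑ i ∈ Finset.range n, h (i / n)) / (n : ℝ)) atTop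
      (𝓝 (∫ t in (0 : ℝ)..1, h t)) := by
  rw [Metric.tendsto_atTop]
  intro ε hε
  have huc : UniformContinuousOn h (Set.Icc 0 1) :=
    isCompact_Icc.uniformContinuousOn_of_continuous hc.continuousOn
  rw [Metric.uniformContinuousOn_iff] at huc
  obtain ⟨δ, hδ, huc⟩ := huc (ε / 2) (by positivity)
  obtain ⟨n0, hn0⟩ := exists_nat_gt (1 / δ)
  refine ⟨max n0 1, fun n hn => ?_⟩
  have hn1 : 1 ≤ n := (le_max_right _ _).trans hn
  have hn0' : n0 ≤ n := (le_max_left _ _).trans hn
  have hnpos : (0 : ℝ) < n := by exact_mod_cast hn1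
  have hnδ : 1 / (n : ℝ) < δ := by
    rw [div_lt_iff₀ hnpos]
    rw [div_lt_iff₀ hδ] at hn0
    have : (n0 : ℝ) ≤ n := by exact_mod_cast hn0'
    nlinarith
  have hsplit : ∫ t in (0 : ℝ)..1, h t = ∑ i ∈ Finset.range n, ∫ t in ((i : ℝ) / n)..(((i + 1 : ℕ) : ℝ) / n), h t := by
    rw [intervalIntegral.sum_integral_adjacent_intervals (a := fun i : ℕ => (i : ℝ) / n)]
    · simp [div_self hnpos.ne']
    · intro k _
      exact hc.intervalIntegrable _ _
  rw [Real.dist_eq, hsplit, Finset.sum_div, ← Finset.sum_sub_distrib]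
  calc |∑ i ∈ Finset.range n, (h ((i : ℝ) / n) / n - ∫ t in ((i : ℝ) / n)..(((i + 1 : ℕ) : ℝ) / n), h t)|
      ≤ ∑ i ∈ Finset.range n, |h ((i : ℝ) / n) / n - ∫ t in ((i : ℝ) / n)..(((i + 1 : ℕ) : ℝ) / n), h t| :=
        Finset.abs_sum_le_sum_abs _ _
    _ ≤ ∑ _i ∈ Finset.range n, (ε / 2) * (1 / n) := by
        apply Finset.sum_le_sum
        intro i hi
        have hin : i < n := Finset.mem_range.mp hi
        have hlen : (((i + 1 : ℕ) : ℝ) / n) - ((i : ℝ) / n) = 1 / n := by push_cast; field_simp; ring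
        have hle : (i : ℝ) / n ≤ ((i + 1 : ℕ) : ℝ) / n := by
          apply div_le_div_of_nonneg_right _ hnpos.le
          push_cast; linarith
        have e1 : h ((i : ℝ) / n) / n = ∫ t in ((i : ℝ) / n)..(((i + 1 : ℕ) : ℝ) / n), h ((i : ℝ) / n) := by
          rw [intervalIntegral.integral_const, hlen, smul_eq_mul]; ring
        rw [e1, ← intervalIntegral.integral_sub (intervalIntegrable_const) (hc.intervalIntegrable _ _)]
        have key := intervalIntegral.norm_integral_le_of_norm_le_const (a := (i : ℝ) / n)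
          (b := ((i + 1 : ℕ) : ℝ) / n) (C := ε / 2) (f := fun t => h ((i : ℝ) / n) - h t) ?_
        · rw [Real.norm_eq_abs, hlen, abs_of_nonneg (show (0 : ℝ) ≤ 1 / (n : ℝ) by positivity)] at key
          exact key
        · intro t ht
          rw [Set.uIoc_of_le hle] at ht
          have hi0 : 0 ≤ (i : ℝ) / n := by positivity
          have hi1 : ((i + 1 : ℕ) : ℝ) / n ≤ 1 := by
            rw [div_le_one hnpos]
            exact_mod_cast hin
          have h1 := huc ((i : ℝ) / n) ⟨hi0, hle.trans hi1⟩ t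
            ⟨hi0.trans ht.1.le, ht.2.trans hi1⟩ (by
              rw [Real.dist_eq, abs_sub_comm, abs_of_nonneg (by linarith [ht.1])]
              have := ht.2
              linarith [hlen])
          rw [Real.dist_eq] at h1
          rw [Real.norm_eq_abs]
          exact h1.le
    _ = ε / 2 := by
        rw [Finset.sum_const, Finset.card_range, nsmul_eq_mul]
        field_simp
    _ < ε := by linarith

theorem sum_even (K : ℤ → ℝ) (hK : ∀ m, K (-m) = K m) (n : ℕ) :
    ∑ i ∈ range n, ∑ j ∈ range n, K ((i : ℤ) - j) =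
      2 * ∑ m ∈ range n, ((n : ℝ) - m) * K m - n * K 0 := by
  induction n with
  | zero => simp
  | succ n ih =>
    have h1 : ∑ i ∈ range n, K ((i : ℤ) - n) = ∑ m ∈ range n, K ((m : ℤ) + 1) := by
      rw [← Finset.sum_range_reflect]
      refine Finset.sum_congr rfl fun i hi => ?_
      rw [Finset.mem_range] at hi
      rw [← hK]
      congr 1
      have : ((n - 1 - i : ℕ) : ℤ) = n - 1 - i := by omega
      rw [this]
      ring
    have h2 : ∑ j ∈ range n, K ((n : ℤ) - j) = ∑ m ∈ range n, K ((m : ℤ) + 1) := by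
      rw [← h1]
      refine Finset.sum_congr rfl fun i _ => ?_
      rw [← hK]
      congr 1
      ring
    have h3 : ∑ m ∈ range n, K ((m : ℤ) + 1) + K 0 = ∑ m ∈ range n, K m + K n := by
      have e1 := Finset.sum_range_succ' (fun m : ℕ => K (m : ℤ)) n
      have e2 := Finset.sum_range_succ (fun m : ℕ => K (m : ℤ)) n
      rw [e2] at e1
      push_cast at e1
      linarith
    have h4 : ∑ m ∈ range n, (((n + 1 : ℕ) : ℝ) - m) * K m =
        ∑ m ∈ range n, ((n : ℝ) - m) * K m + ∑ m ∈ range n, K m := by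
      rw [← Finset.sum_add_distrib]
      refine Finset.sum_congr rfl fun m _ => ?_
      push_cast
      ring
    rw [Finset.sum_range_succ]
    have h5 : ∑ i ∈ range n, ∑ j ∈ range (n + 1), K ((i : ℤ) - j) =
        ∑ i ∈ range n, ∑ j ∈ range n, K ((i : ℤ) - j) + ∑ i ∈ range n, K ((i : ℤ) - n) := by
      rw [← Finset.sum_add_distrib]
      exact Finset.sum_congr rfl fun i _ => Finset.sum_range_succ _ _
    rw [h5, Finset.sum_range_succ, ih, h1, h2, sub_self, Finset.sum_range_succ, h4]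
    push_cast
    have h6 : ∑ m ∈ range n, K ((m : ℤ) + 1) = ∑ m ∈ range n, K m + K n - K 0 := by linarith
    rw [h6]
    ring

/-- positive definite functions -/
def PD (g : ℝ → ℝ) : Prop :=
  ∀ (n : ℕ) (x c : Fin n → ℝ), 0 ≤ ∑ i, ∑ j, c i * c j * g (x i - x j)

theorem PD.zero {g : ℝ → ℝ} (hpd : PD g) : 0 ≤ g 0 := by
  have := hpd 1 (fun _ => 0) (fun _ => 1)
  simpa using this

theorem PD.bound {g : ℝ → ℝ} (hpd : PD g) (hev : ∀ v, g (-v) = g v) (v : ℝ) : |g v| ≤ g 0 := by
  have h1 := hpd 2 ![v, 0] ![1, 1]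
  have h2 := hpd 2 ![v, 0] ![1, -1]
  simp [Fin.sum_univ_two, hev] at h1 h2
  rw [abs_le]
  constructor <;> linarith

theorem pos_half {g : ℝ → ℝ} (hc : Continuous g) (hev : ∀ v, g (-v) = g v) (hpd : PD g)
    (T β : ℝ) : 0 ≤ ∫ t in (0 : ℝ)..1, (1 - t) * (g (T * t) * Real.cos (β * t)) := by
  have hlim := riemann_tendsto (fun t => (1 - t) * (g (T * t) * Real.cos (β * t))) (by fun_prop)
  refine ge_of_tendsto' hlim fun n => ?_
  rcases Nat.eq_zero_or_pos n with h0 | h0
  · subst h0; simp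
  have hn : (0 : ℝ) < n := by exact_mod_cast h0
  set K : ℤ → ℝ := fun m => g (T * (m / n)) * Real.cos (β * (m / n)) with hKdef
  have hK : ∀ m, K (-m) = K m := by
    intro m
    simp only [hKdef]
    push_cast
    have e1 : T * (-(m : ℝ) / n) = -(T * (m / n)) := by ring
    have e2 : β * (-(m : ℝ) / n) = -(β * (m / n)) := by ring
    rw [e1, e2, hev, Real.cos_neg]
  have h1 := hpd n (fun i => T * ((i : ℕ) / n)) (fun i => Real.cos (β * ((i : ℕ) / n)))
  have h2 := hpd n (fun i => T * ((i : ℕ) / n)) (fun i => Real.sin (β * ((i : ℕ) / n)))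
  have h3 : ∑ i : Fin n, ∑ j : Fin n, K (((i : ℕ) : ℤ) - ((j : ℕ) : ℤ)) =
      ∑ i : Fin n, ∑ j : Fin n, Real.cos (β * ((i : ℕ) / n)) * Real.cos (β * ((j : ℕ) / n)) *
        g (T * ((i : ℕ) / n) - T * ((j : ℕ) / n)) +
      ∑ i : Fin n, ∑ j : Fin n, Real.sin (β * ((i : ℕ) / n)) * Real.sin (β * ((j : ℕ) / n)) *
        g (T * ((i : ℕ) / n) - T * ((j : ℕ) / n)) := by
    rw [← Finset.sum_add_distrib]
    refine Finset.sum_congr rfl fun i _ => ?_
    rw [← Finset.sum_add_distrib]
    refine Finset.sum_congr rfl fun j _ => ?_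
    simp only [hKdef]
    push_cast
    have e1 : T * (((i : ℕ) - (j : ℕ) : ℝ) / n) = T * ((i : ℕ) / n) - T * ((j : ℕ) / n) := by ring
    have e2 : β * (((i : ℕ) - (j : ℕ) : ℝ) / n) = β * ((i : ℕ) / n) - β * ((j : ℕ) / n) := by ring
    rw [e1, e2, Real.cos_sub]
    ring
  have h4 : ∑ i : Fin n, ∑ j : Fin n, K (((i : ℕ) : ℤ) - ((j : ℕ) : ℤ)) =
      ∑ i ∈ range n, ∑ j ∈ range n, K ((i : ℤ) - j) := by
    rw [Fin.sum_univ_eq_sum_range (fun i => ∑ j : Fin n, K ((i : ℤ) - ((j : ℕ) : ℤ))) n]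
    refine Finset.sum_congr rfl fun i _ => ?_
    rw [Fin.sum_univ_eq_sum_range (fun j => K ((i : ℤ) - (j : ℤ))) n]
  have h5 := sum_even K hK n
  have h6 : K 0 = g 0 := by simp [hKdef]
  have h7 := hpd.zero
  have h8 : 0 ≤ ∑ m ∈ range n, ((n : ℝ) - m) * K m := by
    have : 0 ≤ 2 * ∑ m ∈ range n, ((n : ℝ) - m) * K m - n * K 0 := by
      rw [← h5, ← h4, h3]
      exact add_nonneg h1 h2
    rw [h6] at this
    have h9 : 0 ≤ (n : ℝ) * g 0 := by positivity
    linarith
  have h10 : ∑ i ∈ range n, (1 - (i : ℝ) / n) * (g (T * (i / n)) * Real.cos (β * (i / n))) =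
      (∑ m ∈ range n, ((n : ℝ) - m) * K m) / n := by
    rw [Finset.sum_div]
    refine Finset.sum_congr rfl fun m _ => ?_
    simp only [hKdef]
    push_cast
    field_simp
  rw [h10]
  positivity

/-- the tent integral of an even function -/
theorem tent_int (k : ℝ → ℝ) (hk : ∀ v, k (-v) = k v) :
    ∫ t : ℝ, max (1 - |t|) 0 * k t = 2 * ∫ t in (0 : ℝ)..1, (1 - t) * k t := by
  have h1 : ∀ t : ℝ, max (1 - |t|) 0 * k t = (fun t => max (1 - t) 0 * k t) |t| := by
    intro t
    show _ = max (1 - |t|) 0 * k |t|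
    rcases abs_choice t with h | h
    · rw [h]
    · rw [h, hk]
  have h0 : ∫ t : ℝ, max (1 - |t|) 0 * k t = 2 * ∫ t in Set.Ioi (0 : ℝ), max (1 - t) 0 * k t := by
    rw [← integral_comp_abs (f := fun t => max (1 - t) 0 * k t)]
    exact integral_congr_ae (Eventually.of_forall h1)
  rw [h0, intervalIntegral.integral_of_le zero_le_one]
  congr 1
  have h2 : ∫ t in Set.Ioi (0 : ℝ), max (1 - t) 0 * k t =
      ∫ t in Set.Ioc (0 : ℝ) 1, max (1 - t) 0 * k t := by
    refine setIntegral_eq_of_subset_of_forall_diff_eq_zero measurableSet_Ioi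
      (fun t ht => ht.1) ?_
    intro t ht
    have : 1 < t := by
      by_contra h
      exact ht.2 ⟨ht.1, not_lt.1 h⟩
    rw [max_eq_right (by linarith), zero_mul]
  rw [h2]
  refine setIntegral_congr_fun measurableSet_Ioc fun t ht => ?_
  show max (1 - t) 0 * k t = _
  rw [max_eq_left (by linarith [ht.2])]

/-- the truncated function -/
noncomputable def FT (g : ℝ → ℝ) (T : ℝ) (v : ℝ) : ℝ := max (1 - |v / T|) 0 * g v

theorem FT_cont {g : ℝ → ℝ} (hc : Continuous g) (T : ℝ) : Continuous (FT g T) := by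
  unfold FT; fun_prop

theorem FT_even {g : ℝ → ℝ} (hev : ∀ v, g (-v) = g v) (T v : ℝ) : FT g T (-v) = FT g T v := by
  unfold FT
  rw [hev, neg_div, abs_neg]

theorem FT_zero (g : ℝ → ℝ) (T : ℝ) : FT g T 0 = g 0 := by
  unfold FT; simp

theorem FT_supp (g : ℝ → ℝ) {T : ℝ} (hT : 0 < T) : HasCompactSupport (FT g T) := by
  refine HasCompactSupport.intro (isCompact_Icc (a := -T) (b := T)) fun v hv => ?_
  unfold FT
  have : T < |v| := by
    by_contra h
    apply hv
    rw [not_lt, abs_le] at h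
    exact h
  rw [max_eq_right, zero_mul]
  rw [abs_div, abs_of_pos hT, sub_nonpos, le_div_iff₀ hT]
  linarith

theorem FT_bound {g : ℝ → ℝ} (hpd : PD g) (hev : ∀ v, g (-v) = g v) (T v : ℝ) :
    |FT g T v| ≤ g 0 := by
  unfold FT
  rw [abs_mul]
  have h1 : |max (1 - |v / T|) 0| ≤ 1 := by
    rw [abs_of_nonneg (le_max_right _ _)]
    exact max_le (by linarith [abs_nonneg (v / T)]) zero_le_one
  calc |max (1 - |v / T|) 0| * |g v| ≤ 1 * g 0 :=
        mul_le_mul h1 (hpd.bound hev v) (abs_nonneg _) zero_le_one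
    _ = g 0 := one_mul _

/-- **part A** -/
theorem pos_full {g : ℝ → ℝ} (hc : Continuous g) (hev : ∀ v, g (-v) = g v) (hpd : PD g)
    {T : ℝ} (hT : 0 < T) (α : ℝ) : 0 ≤ ∫ v, FT g T v * Real.cos (2 * Real.pi * v * α) := by
  have h1 := Measure.integral_comp_mul_left
    (fun v => FT g T v * Real.cos (2 * Real.pi * v * α)) T
  have h2 : ∀ t : ℝ, FT g T (T * t) * Real.cos (2 * Real.pi * (T * t) * α) =
      max (1 - |t|) 0 * (g (T * t) * Real.cos ((2 * Real.pi * T * α) * t)) := by
    intro t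
    unfold FT
    have e1 : T * t / T = t := by field_simp
    have e2 : 2 * Real.pi * (T * t) * α = (2 * Real.pi * T * α) * t := by ring
    rw [e1, e2, mul_assoc]
  simp only [h2] at h1
  rw [tent_int _ (fun v => by rw [mul_neg, mul_neg, hev, Real.cos_neg])] at h1
  have h3 := pos_half hc hev hpd T (2 * Real.pi * T * α)
  have h4 : ∫ v, FT g T v * Real.cos (2 * Real.pi * v * α) = T *
      (2 * ∫ t in (0 : ℝ)..1, (1 - t) * (g (T * t) * Real.cos ((2 * Real.pi * T * α) * t))) := by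
    rw [h1, smul_eq_mul, abs_of_pos (inv_pos.2 hT), ← mul_assoc, mul_inv_cancel₀ hT.ne', one_mul]
  rw [h4]
  positivity

end Pool.Agent.Y474.SR.Boch
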