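import Mathlib

/-!
Project SR, S_BOCH, part B: an integrable continuous even function with nonnegative Fourier
transform is the inverse transform of its transform, which is integrable.
(helper474, for helper748.)
-/

open Finset Filter Topology MeasureTheory

set_option autoImplicit false
set_option linter.all false

namespace Pool.Agent.Y474.SR.Boch

/-- the cosine transform -/
noncomputable def PT (F : ℝ → ℝ) (α : ℝ) : ℝ := ∫ v, F v * Real.cos (2 * Real.pi * v * α)

theorem int_cos {F : ℝ → ℝ} (hi : Integrable F) (α : ℝ) :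
    Integrable (fun v => F v * Real.cos (2 * Real.pi * v * α)) := by
  refine hi.mul_bdd (c := 1) ?_ ?_
  · exact (by fun_prop : Continuous fun v : ℝ => Real.cos (2 * Real.pi * v * α)).aestronglyMeasurable
  · exact Eventually.of_forall fun v => by
      rw [Real.norm_eq_abs]; exact Real.abs_cos_le_one _

theorem int_sin {F : ℝ → ℝ} (hi : Integrable F) (α : ℝ) :
    Integrable (fun v => F v * Real.sin (2 * Real.pi * v * α)) := by
  refine hi.mul_bdd (c := 1) ?_ ?_
  · exact (by fun_prop : Continuous fun v : ℝ => Real.sin (2 * Real.pi * v * α)).aestronglyMeasurable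
  · exact Eventually.of_forall fun v => by
      rw [Real.norm_eq_abs]; exact Real.abs_sin_le_one _

theorem int_cos' {F : ℝ → ℝ} (hi : Integrable F) (u : ℝ) :
    Integrable (fun α => F α * Real.cos (2 * Real.pi * u * α)) := by
  refine (int_cos hi u).congr (Eventually.of_forall fun α => ?_)
  show _ * _ = _ * _
  congr 2
  ring

theorem int_sin' {F : ℝ → ℝ} (hi : Integrable F) (u : ℝ) :
    Integrable (fun α => F α * Real.sin (2 * Real.pi * u * α)) := by
  refine (int_sin hi u).congr (Eventually.of_forall fun α => ?_)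
  show _ * _ = _ * _
  congr 2
  ring

theorem PT_cont {F : ℝ → ℝ} (hi : Integrable F) : Continuous (PT F) := by
  unfold PT
  refine continuous_of_dominated (bound := fun v => |F v|) ?_ ?_ hi.abs ?_
  · intro α
    exact (int_cos hi α).aestronglyMeasurable
  · intro α
    refine Eventually.of_forall fun v => ?_
    rw [Real.norm_eq_abs, abs_mul]
    calc |F v| * |Real.cos (2 * Real.pi * v * α)| ≤ |F v| * 1 :=
          mul_le_mul_of_nonneg_left (Real.abs_cos_le_one _) (abs_nonneg _)
      _ = |F v| := mul_one _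
  · exact Eventually.of_forall fun v => by fun_prop

theorem gauss_ft {b : ℝ} (hb : 0 < b) (v : ℝ) :
    ∫ α : ℝ, Real.exp (-b * α ^ 2) * Real.cos (2 * Real.pi * v * α) =
      (Real.pi / b) ^ (1 / 2 : ℝ) * Real.exp (-(Real.pi ^ 2 / b) * v ^ 2) := by
  have h1 := fourierIntegral_gaussian (b := (b : ℂ)) (by simpa using hb) (2 * Real.pi * v : ℂ)
  have h2 : ∀ α : ℝ, Complex.exp (Complex.I * (2 * Real.pi * v : ℂ) * α) *
      Complex.exp (-(b : ℂ) * α ^ 2) =
      ((Real.exp (-b * α ^ 2) * Real.cos (2 * Real.pi * v * α) : ℝ) : ℂ) +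
      ((Real.exp (-b * α ^ 2) * Real.sin (2 * Real.pi * v * α) : ℝ) : ℂ) * Complex.I := by
    intro α
    have e1 : Complex.I * (2 * Real.pi * v : ℂ) * α = ((2 * Real.pi * v * α : ℝ) : ℂ) * Complex.I := by
      push_cast; ring
    rw [e1, Complex.exp_mul_I]
    push_cast
    ring
  have hgi : Integrable (fun α : ℝ => Real.exp (-b * α ^ 2)) := integrable_exp_neg_mul_sq hb
  have h3 : (∫ α : ℝ, Complex.exp (Complex.I * (2 * Real.pi * v : ℂ) * α) *
      Complex.exp (-(b : ℂ) * α ^ 2)).re =
      ∫ α : ℝ, Real.exp (-b * α ^ 2) * Real.cos (2 * Real.pi * v * α) := by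
    simp_rw [h2]
    rw [integral_add, integral_mul_const, integral_complex_ofReal, integral_complex_ofReal]
    · simp
    · exact (int_cos' hgi v).ofReal
    · exact (int_sin' hgi v).ofReal.mul_const Complex.I
  rw [← h3, h1]
  have h4 : (Real.pi / b : ℂ) ^ (1 / 2 : ℂ) = (((Real.pi / b) ^ (1 / 2 : ℝ) : ℝ) : ℂ) := by
    rw [Complex.ofReal_cpow (by positivity)]
    push_cast
    rfl
  have h5 : Complex.exp (-(2 * Real.pi * v : ℂ) ^ 2 / (4 * b)) =
      ((Real.exp (-(Real.pi ^ 2 / b) * v ^ 2) : ℝ) : ℂ) := by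
    rw [Complex.ofReal_exp]
    congr 1
    have : (b : ℂ) ≠ 0 := by exact_mod_cast hb.ne'
    push_cast
    field_simp
    ring
  rw [h4, h5, ← Complex.ofReal_mul, Complex.ofReal_re]

theorem gauss_total {b : ℝ} (hb : 0 < b) :
    ∫ v : ℝ, (Real.pi / b) ^ (1 / 2 : ℝ) * Real.exp (-(Real.pi ^ 2 / b) * v ^ 2) = 1 := by
  rw [integral_const_mul, integral_gaussian, ← Real.sqrt_eq_rpow, ← Real.sqrt_mul (by positivity)]
  rw [Real.sqrt_eq_one]
  have := Real.pi_ne_zero
  field_simp

/-- Fubini with a Gaussian weight -/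
theorem gauss_fubini {F : ℝ → ℝ} (hi : Integrable F) {b : ℝ} (hb : 0 < b) :
    ∫ α : ℝ, Real.exp (-b * α ^ 2) * PT F α =
      ∫ v : ℝ, F v * ((Real.pi / b) ^ (1 / 2 : ℝ) * Real.exp (-(Real.pi ^ 2 / b) * v ^ 2)) := by
  have hgi : Integrable (fun α : ℝ => Real.exp (-b * α ^ 2)) := integrable_exp_neg_mul_sq hb
  have h1 : Integrable (Function.uncurry fun (α v : ℝ) =>
      (Real.exp (-b * α ^ 2) * F v) * Real.cos (2 * Real.pi * v * α)) (volume.prod volume) := by
    refine (hgi.mul_prod hi).mul_bdd (c := 1) ?_ ?_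
    · exact (by fun_prop : Continuous fun p : ℝ × ℝ =>
        Real.cos (2 * Real.pi * p.2 * p.1)).aestronglyMeasurable
    · exact Eventually.of_forall fun v => by
        rw [Real.norm_eq_abs]; exact Real.abs_cos_le_one _
  have h2 := integral_integral_swap h1
  have h3 : ∀ α : ℝ, Real.exp (-b * α ^ 2) * PT F α =
      ∫ v, (Real.exp (-b * α ^ 2) * F v) * Real.cos (2 * Real.pi * v * α) := by
    intro α
    unfold PT
    rw [← integral_const_mul]
    refine integral_congr_ae (Eventually.of_forall fun v => ?_)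
    show _ * (_ * _) = _
    ring
  have h4 : ∀ v : ℝ, F v * ((Real.pi / b) ^ (1 / 2 : ℝ) * Real.exp (-(Real.pi ^ 2 / b) * v ^ 2)) =
      ∫ α : ℝ, (Real.exp (-b * α ^ 2) * F v) * Real.cos (2 * Real.pi * v * α) := by
    intro v
    rw [← gauss_ft hb v, ← integral_const_mul]
    refine integral_congr_ae (Eventually.of_forall fun α => ?_)
    show _ * (_ * _) = _
    ring
  simp_rw [h3, h4]
  exact h2

theorem PT_gauss_le {F : ℝ → ℝ} (hi : Integrable F) {M : ℝ}
    (hM : ∀ v, |F v| ≤ M) {b : ℝ} (hb : 0 < b) :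
    ∫ α : ℝ, Real.exp (-b * α ^ 2) * PT F α ≤ M := by
  rw [gauss_fubini hi hb]
  have h0 : Integrable (fun v : ℝ => (Real.pi / b) ^ (1 / 2 : ℝ) *
      Real.exp (-(Real.pi ^ 2 / b) * v ^ 2)) :=
    (integrable_exp_neg_mul_sq (by positivity)).const_mul _
  calc ∫ v : ℝ, F v * ((Real.pi / b) ^ (1 / 2 : ℝ) * Real.exp (-(Real.pi ^ 2 / b) * v ^ 2))
      ≤ ∫ v : ℝ, M * ((Real.pi / b) ^ (1 / 2 : ℝ) * Real.exp (-(Real.pi ^ 2 / b) * v ^ 2)) := by
        refine integral_mono_ae ?_ (h0.const_mul M) ?_
        · refine hi.mul_bdd (c := (Real.pi / b) ^ (1 / 2 : ℝ)) ?_ ?_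
          · exact h0.aestronglyMeasurable
          · refine Eventually.of_forall fun v => ?_
            rw [Real.norm_eq_abs, abs_of_nonneg (by positivity)]
            refine mul_le_of_le_one_right (by positivity) ?_
            rw [Real.exp_le_one_iff]
            have : 0 ≤ (Real.pi ^ 2 / b) * v ^ 2 := by positivity
            linarith
        · refine Eventually.of_forall fun v => ?_
          exact mul_le_mul_of_nonneg_right ((le_abs_self _).trans (hM v)) (by positivity)
    _ = M := by rw [integral_const_mul, gauss_total hb, mul_one]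

theorem PT_bound {F : ℝ → ℝ} (hi : Integrable F) (α : ℝ) : |PT F α| ≤ ∫ v, |F v| := by
  unfold PT
  rw [← Real.norm_eq_abs]
  refine (norm_integral_le_integral_norm _).trans ?_
  refine integral_mono_ae (int_cos hi α).norm hi.abs (Eventually.of_forall fun v => ?_)
  show ‖_‖ ≤ |F v|
  rw [Real.norm_eq_abs, abs_mul]
  exact mul_le_of_le_one_right (abs_nonneg _) (Real.abs_cos_le_one _)

/-- **the transform is integrable** -/
theorem PT_integrable {F : ℝ → ℝ} (hi : Integrable F) {M : ℝ}
    (hM : ∀ v, |F v| ≤ M) (hP : ∀ α, 0 ≤ PT F α) : Integrable (PT F) := by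
  have hc := PT_cont hi
  refine integrable_of_intervalIntegral_norm_bounded (l := atTop) (a := fun n : ℕ => -((n : ℝ) + 1))
    (b := fun n : ℕ => (n : ℝ) + 1) (Real.exp 1 * M) (fun n => ?_) ?_ ?_
    (Eventually.of_forall fun n => ?_)
  · exact (hc.integrableOn_Icc).mono_set Set.Ioc_subset_Icc_self
  · exact tendsto_neg_atTop_atBot.comp
      (tendsto_atTop_add_const_right _ _ tendsto_natCast_atTop_atTop)
  · exact tendsto_atTop_add_const_right _ _ tendsto_natCast_atTop_atTop
  · set r : ℝ := (n : ℝ) + 1 with hr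
    have hr0 : 0 < r := by positivity
    have hb : 0 < 1 / r ^ 2 := by positivity
    have hgi : Integrable (fun α : ℝ => Real.exp (-(1 / r ^ 2) * α ^ 2)) :=
      integrable_exp_neg_mul_sq hb
    have hwi : Integrable (fun α : ℝ => Real.exp (-(1 / r ^ 2) * α ^ 2) * PT F α) := by
      refine hgi.mul_bdd (c := ∫ v, |F v|) hc.aestronglyMeasurable ?_
      exact Eventually.of_forall fun α => PT_bound hi α
    rw [intervalIntegral.integral_of_le (by linarith)]
    calc ∫ x in Set.Ioc (-r) r, ‖PT F x‖
        ≤ ∫ x in Set.Ioc (-r) r, Real.exp 1 * (Real.exp (-(1 / r ^ 2) * x ^ 2) * PT F x) := by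
          refine setIntegral_mono_on ?_ (hwi.const_mul _).integrableOn measurableSet_Ioc
            fun x hx => ?_
          · exact (hc.norm.integrableOn_Icc).mono_set Set.Ioc_subset_Icc_self
          · rw [Real.norm_eq_abs, abs_of_nonneg (hP x), ← mul_assoc, ← Real.exp_add]
            refine le_mul_of_one_le_left (hP x) ?_
            rw [Real.one_le_exp_iff]
            have : x ^ 2 ≤ r ^ 2 := by
              rw [sq_le_sq, abs_of_pos hr0]
              exact abs_le.2 ⟨hx.1.le, hx.2⟩
            have h2 : 1 / r ^ 2 * x ^ 2 ≤ 1 := by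
              rw [div_mul_eq_mul_div, one_mul, div_le_one (by positivity)]
              exact this
            linarith
      _ ≤ ∫ x, Real.exp 1 * (Real.exp (-(1 / r ^ 2) * x ^ 2) * PT F x) := by
          refine setIntegral_le_integral (hwi.const_mul _) (Eventually.of_forall fun x => ?_)
          have := hP x
          show 0 ≤ _
          positivity
      _ ≤ Real.exp 1 * M := by
          rw [integral_const_mul]
          exact mul_le_mul_of_nonneg_left (PT_gauss_le hi hM hb) (by positivity)

theorem odd_int {F : ℝ → ℝ} (h : ∀ v, F (-v) = - F v) : ∫ v, F v = 0 := by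
  have h1 := integral_neg_eq_self F volume
  have h2 : ∫ v, F (-v) = - ∫ v, F v := by
    simp_rw [h]
    exact integral_neg _
  linarith

/-- **inversion** -/
theorem PT_inv {F : ℝ → ℝ} (hFc : Continuous F) (hi : Integrable F) (hev : ∀ v, F (-v) = F v)
    (hPi : Integrable (PT F)) (u : ℝ) :
    F u = ∫ α, PT F α * Real.cos (2 * Real.pi * u * α) := by
  open FourierTransform in
  have h1 : 𝓕 (fun v : ℝ => (F v : ℂ)) = fun α => ((PT F α : ℝ) : ℂ) := by
    funext α
    rw [Real.fourier_real_eq_integral_exp_smul]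
    have h2 : ∀ v : ℝ, Complex.exp (((-2 * Real.pi * v * α : ℝ) : ℂ) * Complex.I) • (F v : ℂ) =
        ((F v * Real.cos (2 * Real.pi * v * α) : ℝ) : ℂ) -
        ((F v * Real.sin (2 * Real.pi * v * α) : ℝ) : ℂ) * Complex.I := by
      intro v
      rw [Complex.exp_mul_I, ← Complex.ofReal_cos, ← Complex.ofReal_sin]
      have e1 : -2 * Real.pi * v * α = -(2 * Real.pi * v * α) := by ring
      rw [e1, Real.cos_neg, Real.sin_neg, smul_eq_mul]
      push_cast
      ring
    simp_rw [h2]
    rw [integral_sub, integral_mul_const, integral_complex_ofReal, integral_complex_ofReal]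
    · rw [odd_int (F := fun v => F v * Real.sin (2 * Real.pi * v * α))]
      · simp [PT]
      · intro v
        rw [hev]
        have e1 : 2 * Real.pi * -v * α = -(2 * Real.pi * v * α) := by ring
        rw [e1, Real.sin_neg]
        ring
    · exact (int_cos hi α).ofReal
    · exact ((int_sin hi α).ofReal).mul_const _
  have h2 := Continuous.fourierInv_fourier_eq (f := fun v : ℝ => (F v : ℂ))
    (Complex.continuous_ofReal.comp hFc) hi.ofReal (by rw [h1]; exact hPi.ofReal)
  have h3 := congrFun h2 u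
  rw [h1, Real.fourierInv_eq'] at h3
  have h4 : ∀ α : ℝ, Complex.exp (((2 * Real.pi * inner ℝ α u : ℝ) : ℂ) * Complex.I) •
      ((PT F α : ℝ) : ℂ) = ((PT F α * Real.cos (2 * Real.pi * u * α) : ℝ) : ℂ) +
        ((PT F α * Real.sin (2 * Real.pi * u * α) : ℝ) : ℂ) * Complex.I := by
    intro α
    rw [Complex.exp_mul_I, ← Complex.ofReal_cos, ← Complex.ofReal_sin]
    have e1 : 2 * Real.pi * inner ℝ α u = 2 * Real.pi * u * α := by
      simp
      ring
    rw [e1, smul_eq_mul]
    push_cast
    ring
  simp_rw [h4] at h3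
  rw [integral_add, integral_mul_const, integral_complex_ofReal, integral_complex_ofReal] at h3
  · have h5 := congrArg Complex.re h3
    simp at h5
    exact h5.symm
  · exact (int_cos' hPi u).ofReal
  · exact (int_sin' hPi u).ofReal.mul_const Complex.I

/-- **the comparison** -/
theorem PT_compare {F : ℝ → ℝ} (hFc : Continuous F) (hi : Integrable F) (hev : ∀ v, F (-v) = F v)
    {M : ℝ} (hM : ∀ v, |F v| ≤ M) (hP : ∀ α, 0 ≤ PT F α) {s : ℝ → ℝ} (hs : Continuous s)
    (hs0 : ∀ α, 0 ≤ s α) (hs1 : ∀ α, s α ≤ 1) (u : ℝ) :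
    |F u - ∫ α, s α * Real.cos (2 * Real.pi * u * α) * PT F α| ≤ F 0 - ∫ α, s α * PT F α := by
  have hPi := PT_integrable hi hM hP
  have hsP : Integrable (fun α => s α * PT F α) := by
    refine hPi.bdd_mul (c := 1) hs.aestronglyMeasurable (Eventually.of_forall fun α => ?_)
    rw [Real.norm_eq_abs, abs_of_nonneg (hs0 α)]
    exact hs1 α
  have hcP : Integrable (fun α => PT F α * Real.cos (2 * Real.pi * u * α)) := by
    refine (int_cos hPi u).congr (Eventually.of_forall fun α => ?_)
    show _ * _ = _ * _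
    congr 2
    ring
  have hscP : Integrable (fun α => s α * Real.cos (2 * Real.pi * u * α) * PT F α) := by
    refine hPi.bdd_mul (c := 1) (by fun_prop : Continuous fun α : ℝ =>
      s α * Real.cos (2 * Real.pi * u * α)).aestronglyMeasurable (Eventually.of_forall fun α => ?_)
    rw [Real.norm_eq_abs, abs_mul, abs_of_nonneg (hs0 α)]
    exact mul_le_one₀ (hs1 α) (abs_nonneg _) (Real.abs_cos_le_one _)
  have e0 := PT_inv hFc hi hev hPi 0
  have eu := PT_inv hFc hi hev hPi u
  have e0' : F 0 = ∫ α, PT F α := by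
    rw [e0]
    refine integral_congr_ae (Eventually.of_forall fun α => ?_)
    simp
  rw [e0', eu, ← integral_sub hcP hscP, ← integral_sub hPi hsP, ← Real.norm_eq_abs]
  refine (norm_integral_le_integral_norm _).trans ?_
  refine integral_mono_ae (hcP.sub hscP).norm (hPi.sub hsP) (Eventually.of_forall fun α => ?_)
  show ‖PT F α * Real.cos (2 * Real.pi * u * α) - s α * Real.cos (2 * Real.pi * u * α) * PT F α‖
    ≤ PT F α - s α * PT F α
  have e1 : PT F α * Real.cos (2 * Real.pi * u * α) - s α * Real.cos (2 * Real.pi * u * α) * PT F α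
      = ((1 - s α) * PT F α) * Real.cos (2 * Real.pi * u * α) := by ring
  have h0 : 0 ≤ (1 - s α) * PT F α := mul_nonneg (by linarith [hs1 α]) (hP α)
  rw [e1, Real.norm_eq_abs, abs_mul, abs_of_nonneg h0]
  calc (1 - s α) * PT F α * |Real.cos (2 * Real.pi * u * α)| ≤ (1 - s α) * PT F α * 1 :=
        mul_le_mul_of_nonneg_left (Real.abs_cos_le_one _) h0
    _ = PT F α - s α * PT F α := by ring

end Pool.Agent.Y474.SR.Boch
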