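import Pool.Agent.Y748.SR.Stm2
import Pool.Agent.Y474.SR.BochA
import Pool.Agent.Y474.SR.BochB

/-!
Project SR, S_BOCH, part C: `t_BOCH`.
(helper474, for helper748.)
-/

open Finset Filter Topology MeasureTheory

set_option autoImplicit false
set_option linter.all false

namespace Pool.Agent.Y474.SR.Boch

open Pool.Agent.Y748.SR

/-- multiplication formula -/
theorem mult {F R : ℝ → ℝ} (hF : Integrable F) (hR : Integrable R) :
    ∫ α, R α * PT F α = ∫ v, F v * PT R v := by
  have h1 : Integrable (Function.uncurry fun (α v : ℝ) =>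
      (R α * F v) * Real.cos (2 * Real.pi * v * α)) (volume.prod volume) := by
    refine (hR.mul_prod hF).mul_bdd (c := 1) ?_ ?_
    · exact (by fun_prop : Continuous fun p : ℝ × ℝ =>
        Real.cos (2 * Real.pi * p.2 * p.1)).aestronglyMeasurable
    · exact Eventually.of_forall fun v => by
        rw [Real.norm_eq_abs]; exact Real.abs_cos_le_one _
  have h2 := integral_integral_swap h1
  have h3 : ∀ α : ℝ, R α * PT F α = ∫ v, (R α * F v) * Real.cos (2 * Real.pi * v * α) := by
    intro α
    unfold PT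
    rw [← integral_const_mul]
    refine integral_congr_ae (Eventually.of_forall fun v => ?_)
    show _ * (_ * _) = _
    ring
  have h4 : ∀ v : ℝ, F v * PT R v = ∫ α : ℝ, (R α * F v) * Real.cos (2 * Real.pi * v * α) := by
    intro v
    unfold PT
    rw [← integral_const_mul]
    refine integral_congr_ae (Eventually.of_forall fun α => ?_)
    show F v * (R α * Real.cos (2 * Real.pi * α * v)) =
      (R α * F v) * Real.cos (2 * Real.pi * v * α)
    rw [show 2 * Real.pi * α * v = 2 * Real.pi * v * α by ring]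
    ring
  simp_rw [h3, h4]
  exact h2

/-- integrals over `[-1, 1]` -/
theorem int_full {f : ℝ → ℝ} (h : ∀ α, 1 ≤ |α| → f α = 0) :
    ∫ α in (-1 : ℝ)..1, f α = ∫ α, f α := by
  rw [intervalIntegral.integral_of_le (by norm_num)]
  refine setIntegral_eq_integral_of_forall_compl_eq_zero fun α hα => h α ?_
  by_contra hh
  rw [not_le, abs_lt] at hh
  exact hα ⟨hh.1, hh.2.le⟩

theorem rr_eq {R : ℝ → ℝ} (h : ∀ α, 1 ≤ |α| → R α = 0) (x : ℝ) : rr R x = PT R x := by
  unfold rr PT
  rw [int_full]
  · refine integral_congr_ae (Eventually.of_forall fun α => ?_)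
    show _ * _ = _ * _
    congr 2
    ring
  · intro α hα
    rw [h α hα, zero_mul]

/-- decay of the transform of a `C²` function with support in `(-1, 1)` -/
theorem decay {R : ℝ → ℝ} (hR : ContDiff ℝ 2 R) {κ : ℝ} (hκ : κ < 1)
    (hs : ∀ α, κ ≤ |α| → R α = 0) : ∃ K : ℝ, ∀ x : ℝ, |rr R x| ≤ K / (1 + x ^ 2) := by
  have hR1 : ContDiff ℝ 1 (deriv R) := by
    have : ContDiff ℝ (1 + 1) R := by simpa [one_add_one_eq_two] using hR
    exact (contDiff_succ_iff_deriv.1 this).2.2
  have hR2 : Continuous (deriv (deriv R)) := hR1.continuous_deriv le_rfl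
  have hd : Differentiable ℝ R := hR.differentiable (by norm_num)
  have hd1 : Differentiable ℝ (deriv R) := hR1.differentiable (by norm_num)
  have hz : ∀ α, κ < |α| → deriv R α = 0 := by
    intro α hα
    have h1 : R =ᶠ[𝓝 α] fun _ => 0 := by
      have : ∀ᶠ β in 𝓝 α, κ < |β| :=
        (continuous_abs.tendsto α).eventually (lt_mem_nhds hα)
      filter_upwards [this] with β hβ
      exact hs β hβ.le
    rw [h1.deriv_eq]
    simp
  obtain ⟨C, hC⟩ := (isCompact_Icc (a := (-1 : ℝ)) (b := 1)).exists_bound_of_continuousOn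
    (f := deriv (deriv R)) hR2.continuousOn
  obtain ⟨D, hD⟩ := (isCompact_Icc (a := (-1 : ℝ)) (b := 1)).exists_bound_of_continuousOn
    (f := R) hR.continuous.continuousOn
  have hb1 : ∀ x : ℝ, |rr R x| ≤ 2 * D := by
    intro x
    unfold rr
    rw [← Real.norm_eq_abs]
    refine (intervalIntegral.norm_integral_le_of_norm_le_const (C := D) fun α hα => ?_).trans
      (le_of_eq ?_)
    · rw [Set.uIoc_of_le (by norm_num)] at hα
      rw [norm_mul]
      have h1 := hD α ⟨hα.1.le, hα.2⟩
      calc ‖R α‖ * ‖Real.cos (2 * Real.pi * x * α)‖ ≤ ‖R α‖ * 1 :=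
            mul_le_mul_of_nonneg_left (by rw [Real.norm_eq_abs]; exact Real.abs_cos_le_one _)
              (norm_nonneg _)
        _ ≤ D := by rw [mul_one]; exact h1
    · norm_num
      ring
  have hb2 : ∀ x : ℝ, (2 * Real.pi * x) ^ 2 * |rr R x| ≤ 2 * C := by
    intro x
    set w := 2 * Real.pi * x with hw
    have hder : ∀ α : ℝ, HasDerivAt
        (fun α => R α * (w * Real.sin (w * α)) + deriv R α * Real.cos (w * α))
        (w ^ 2 * (R α * Real.cos (w * α)) + deriv (deriv R) α * Real.cos (w * α)) α := by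
      intro α
      have h0 : HasDerivAt (fun α : ℝ => w * α) w α := by
        simpa using (hasDerivAt_id α).const_mul w
      have h1 := (hd α).hasDerivAt.mul ((h0.sin).const_mul w)
      have h2 := (hd1 α).hasDerivAt.mul h0.cos
      refine (h1.add h2).congr_deriv ?_
      ring
    have hint := intervalIntegral.integral_eq_sub_of_hasDerivAt (a := -1) (b := 1)
      (fun α _ => hder α)
      ((by fun_prop : Continuous fun α =>
        w ^ 2 * (R α * Real.cos (w * α)) + deriv (deriv R) α * Real.cos (w * α)).intervalIntegrable _ _)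
    rw [hs 1 (by rw [abs_one]; exact hκ.le), hs (-1) (by rw [abs_neg, abs_one]; exact hκ.le),
      hz 1 (by rw [abs_one]; exact hκ), hz (-1) (by rw [abs_neg, abs_one]; exact hκ)] at hint
    have hRc : Continuous R := hR.continuous
    rw [intervalIntegral.integral_add
      ((by fun_prop : Continuous fun α =>
        w ^ 2 * (R α * Real.cos (w * α))).intervalIntegrable _ _)
      ((by fun_prop : Continuous fun α =>
        deriv (deriv R) α * Real.cos (w * α)).intervalIntegrable _ _),
      intervalIntegral.integral_const_mul] at hint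
    have h3 : w ^ 2 * rr R x = - ∫ α in (-1 : ℝ)..1, deriv (deriv R) α * Real.cos (w * α) := by
      have : rr R x = ∫ α in (-1 : ℝ)..1, R α * Real.cos (w * α) := rfl
      rw [this]
      linarith
    have h4 : w ^ 2 * |rr R x| = |w ^ 2 * rr R x| := by
      rw [abs_mul, abs_of_nonneg (sq_nonneg w)]
    rw [h4, h3, abs_neg, ← Real.norm_eq_abs]
    refine (intervalIntegral.norm_integral_le_of_norm_le_const (C := C) fun α hα => ?_).trans
      (le_of_eq ?_)
    · rw [Set.uIoc_of_le (by norm_num)] at hα
      rw [norm_mul]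
      have h1 := hC α ⟨hα.1.le, hα.2⟩
      calc ‖deriv (deriv R) α‖ * ‖Real.cos (w * α)‖ ≤ ‖deriv (deriv R) α‖ * 1 :=
            mul_le_mul_of_nonneg_left (by rw [Real.norm_eq_abs]; exact Real.abs_cos_le_one _)
              (norm_nonneg _)
        _ ≤ C := by rw [mul_one]; exact h1
    · norm_num
      ring
  refine ⟨2 * D + 2 * C, fun x => ?_⟩
  rw [le_div_iff₀ (by positivity)]
  have h1 := hb1 x
  have h2 := hb2 x
  have h3 : x ^ 2 ≤ (2 * Real.pi * x) ^ 2 := by
    rw [mul_pow]
    have : (1 : ℝ) ≤ (2 * Real.pi) ^ 2 := by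
      have := Real.pi_gt_three
      nlinarith
    nlinarith [sq_nonneg x]
  have h4 : x ^ 2 * |rr R x| ≤ 2 * C :=
    (mul_le_mul_of_nonneg_right h3 (abs_nonneg _)).trans h2
  linarith

/-- the test functions used -/
theorem tfn_mk {s : ℝ → ℝ} (hs : ContDiff ℝ 2 s) (hev : ∀ α, s (-α) = s α) {κ : ℝ}
    (hκ : κ < 1) (h0 : ∀ α, κ ≤ |α| → s α = 0) (u : ℝ) :
    TFn (fun α => s α * Real.cos (2 * Real.pi * u * α)) κ := by
  refine ⟨?_, ?_, ?_, ?_⟩
  · have := hs.continuous
    fun_prop
  · intro α
    rw [hev]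
    have : 2 * Real.pi * u * -α = -(2 * Real.pi * u * α) := by ring
    rw [this, Real.cos_neg]
  · intro α hα
    rw [h0 α hα, zero_mul]
  · refine decay (κ := κ) ?_ hκ ?_
    · exact hs.mul (Real.contDiff_cos.comp (contDiff_const.mul contDiff_id))
    · intro α hα
      rw [h0 α hα, zero_mul]

/-- a smooth even bump -/
theorem exists_bump {κ' κ : ℝ} (h0 : 0 < κ') (h1 : κ' < κ) : ∃ s : ℝ → ℝ, ContDiff ℝ 2 s ∧
    (∀ α, s (-α) = s α) ∧ (∀ α, 0 ≤ s α) ∧ (∀ α, s α ≤ 1) ∧ (∀ α, κ ≤ |α| → s α = 0) ∧
    (∀ α, |α| ≤ κ' → s α = 1) := by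
  let b : ContDiffBump (0 : ℝ) := ⟨κ', κ, h0, h1⟩
  refine ⟨b, b.contDiff, fun α => b.neg α, fun α => b.nonneg, fun α => b.le_one, fun α hα => ?_,
    fun α hα => ?_⟩
  · refine b.zero_of_le_dist ?_
    rw [Real.dist_eq, sub_zero]
    exact hα
  · refine b.one_of_mem_closedBall ?_
    rw [Metric.mem_closedBall, Real.dist_eq, sub_zero]
    exact hα

/-- limits of the truncated integrals -/
theorem lim_T {g : ℝ → ℝ} (hc : Continuous g) (hev : ∀ v, g (-v) = g v) (hpd : PD g)
    {r : ℝ → ℝ} (hr : Continuous r) {K : ℝ} (hK : ∀ x, |r x| ≤ K / (1 + x ^ 2)) :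
    Tendsto (fun n : ℕ => ∫ v, FT g n v * r v) atTop (𝓝 (∫ v, g v * r v)) := by
  have hKi : Integrable (fun x : ℝ => K / (1 + x ^ 2)) := by
    simpa [div_eq_mul_inv] using integrable_inv_one_add_sq.const_mul K
  refine tendsto_integral_of_dominated_convergence (fun v => g 0 * (K / (1 + v ^ 2))) ?_ ?_ ?_ ?_
  · intro n
    exact ((FT_cont hc n).mul hr).aestronglyMeasurable
  · exact hKi.const_mul _
  · intro n
    refine Eventually.of_forall fun v => ?_
    rw [Real.norm_eq_abs, abs_mul]
    exact mul_le_mul (FT_bound hpd hev n v) (hK v) (abs_nonneg _) hpd.zero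
  · refine Eventually.of_forall fun v => ?_
    refine Tendsto.mul_const _ ?_
    unfold FT
    have h1 : Tendsto (fun n : ℕ => v / (n : ℝ)) atTop (𝓝 0) :=
      tendsto_const_div_atTop_nhds_zero_nat v
    have h2 : Tendsto (fun n : ℕ => max (1 - |v / (n : ℝ)|) 0 * g v) atTop
        (𝓝 (max (1 - |0|) 0 * g v)) :=
      (((tendsto_const_nhds.sub h1.abs).max tendsto_const_nhds)).mul_const _
    simpa using h2

theorem lim_val (g : ℝ → ℝ) (v : ℝ) : Tendsto (fun n : ℕ => FT g n v) atTop (𝓝 (g v)) := by
  unfold FT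
  have h1 : Tendsto (fun n : ℕ => v / (n : ℝ)) atTop (𝓝 0) :=
    tendsto_const_div_atTop_nhds_zero_nat v
  have h2 : Tendsto (fun n : ℕ => max (1 - |v / (n : ℝ)|) 0 * g v) atTop
      (𝓝 (max (1 - |0|) 0 * g v)) :=
    (((tendsto_const_nhds.sub h1.abs).max tendsto_const_nhds)).mul_const _
  simpa using h2

/-- the value of the transform of the tent -/
theorem tent_val (u : ℝ) :
    ∫ α in (-1 : ℝ)..1, Real.cos (2 * Real.pi * u * α) * (1 - |α|) = sn u ^ 2 := by
  have h1 : ∫ α in (-1 : ℝ)..1, Real.cos (2 * Real.pi * u * α) * (1 - |α|) =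
      ∫ α in (-1 : ℝ)..1, max (1 - |α|) 0 * Real.cos (2 * Real.pi * u * α) := by
    refine intervalIntegral.integral_congr fun α hα => ?_
    rw [Set.uIcc_of_le (by norm_num)] at hα
    show _ * _ = _ * _
    rw [max_eq_left (by have := abs_le.2 hα; linarith), mul_comm]
  rw [h1, int_full (fun α hα => by rw [max_eq_right (by linarith), zero_mul]),
    tent_int _ (fun v => by rw [mul_neg, Real.cos_neg])]
  rcases eq_or_ne u 0 with hu | hu
  · subst hu
    simp only [mul_zero, zero_mul, Real.cos_zero, mul_one, sn, Real.sinc_zero, one_pow]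
    rw [intervalIntegral.integral_sub (by simp) (by simp)]
    simp
    norm_num
  · have hw : 2 * Real.pi * u ≠ 0 := by positivity
    set w := 2 * Real.pi * u with hwdef
    have hder : ∀ α : ℝ, HasDerivAt
        (fun α => (1 - α) * (Real.sin (w * α) / w) - Real.cos (w * α) / w ^ 2)
        ((1 - α) * Real.cos (w * α)) α := by
      intro α
      have h0 : HasDerivAt (fun α : ℝ => w * α) w α := by
        simpa using (hasDerivAt_id α).const_mul w
      have h1 := ((hasDerivAt_id α).const_sub 1).mul ((h0.sin).div_const w)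
      have h2 := h0.cos.div_const (w ^ 2)
      refine (h1.sub h2).congr_deriv ?_
      simp only [id]
      field_simp
      ring
    have hint := intervalIntegral.integral_eq_sub_of_hasDerivAt (a := 0) (b := 1)
      (fun α _ => hder α)
      ((by fun_prop : Continuous fun α =>
        (1 - α) * Real.cos (w * α)).intervalIntegrable _ _)
    rw [hint]
    have hcos : Real.cos w = 1 - 2 * Real.sin (Real.pi * u) ^ 2 := by
      have : w = 2 * (Real.pi * u) := by rw [hwdef]; ring
      rw [this, Real.cos_two_mul, Real.cos_sq']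
      ring
    unfold sn
    rw [Real.sinc_of_ne_zero (mul_ne_zero Real.pi_ne_zero hu)]
    simp only [sub_self, zero_mul, mul_one, mul_zero, Real.sin_zero, Real.cos_zero, zero_div,
      zero_sub, sub_zero]
    rw [hcos, hwdef]
    have := Real.pi_ne_zero
    field_simp
    ring

theorem tent_one : ∫ α in (-1 : ℝ)..1, (1 - |α|) = 1 := by
  have h := tent_val 0
  simp [sn] at h
  exact h

/-- **the theorem** -/
theorem t_BOCH : Pool.Agent.Y748.SR.S_BOCH := by
  intro g hc hev hpd hg1 htest u
  have hpd' : PD g := hpd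
  have key : ∀ κ' : ℝ, 0 < κ' → κ' < 1 → |g u - sn u ^ 2| ≤ 4 * (1 - κ') := by
    intro κ' h0 h1
    set κ := (κ' + 1) / 2 with hκ
    have h2 : κ' < κ := by rw [hκ]; linarith
    have h3 : κ < 1 := by rw [hκ]; linarith
    have hκ0 : 0 < κ := by linarith
    obtain ⟨s, hsC, hsev, hs0, hs1, hsz, hso⟩ := exists_bump h0 h2
    have hsc := hsC.continuous
    have hs1z : ∀ α, 1 ≤ |α| → s α = 0 := fun α hα => hsz α (by linarith)
    -- the inequality at finite `T`
    have hsupp : HasCompactSupport s := by
      refine HasCompactSupport.intro (isCompact_Icc (a := (-1 : ℝ)) (b := 1)) fun α hα => hs1z α ?_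
      by_contra hh
      rw [not_le, abs_lt] at hh
      exact hα ⟨hh.1.le, hh.2.le⟩
    have hlim : ∀ y : ℝ, Tendsto (fun n : ℕ => ∫ α, s α * Real.cos (2 * Real.pi * y * α) *
        PT (FT g n) α) atTop (𝓝 (∫ α in (-1 : ℝ)..1,
          (s α * Real.cos (2 * Real.pi * y * α)) * (1 - |α|))) := by
      intro y
      have htf := tfn_mk hsC hsev h3 hsz y
      rw [← htest _ κ hκ0 h3 htf]
      obtain ⟨K, hK⟩ := htf.decay
      set R : ℝ → ℝ := fun α => s α * Real.cos (2 * Real.pi * y * α) with hR
      have hRz : ∀ α, 1 ≤ |α| → R α = 0 := fun α hα => by simp [hR, hs1z α hα]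
      have hRc : Continuous R := htf.cont
      have hRi : Integrable R := hRc.integrable_of_hasCompactSupport (hsupp.mul_right)
      have hrc : Continuous (rr R) := by
        have : rr R = PT R := funext fun x => rr_eq hRz x
        rw [this]
        exact PT_cont hRi
      have hl := lim_T hc hev hpd' hrc hK
      have e1 : ∫ v, rr R v * g v = ∫ v, g v * rr R v :=
        integral_congr_ae (Eventually.of_forall fun v => mul_comm _ _)
      rw [e1]
      refine hl.congr' ?_
      filter_upwards [eventually_gt_atTop 0] with n hn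
      have hFi : Integrable (FT g n) :=
        (FT_cont hc n).integrable_of_hasCompactSupport (FT_supp g (by exact_mod_cast hn))
      have := mult hFi hRi
      rw [show (∫ α, s α * Real.cos (2 * Real.pi * y * α) * PT (FT g n) α) =
        ∫ α, R α * PT (FT g n) α from rfl, this]
      refine integral_congr_ae (Eventually.of_forall fun v => ?_)
      show _ * _ = _ * _
      rw [rr_eq hRz]
    have hl0 : Tendsto (fun n : ℕ => ∫ α, s α * PT (FT g n) α) atTop
        (𝓝 (∫ α in (-1 : ℝ)..1, s α * (1 - |α|))) := by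
      have := hlim 0
      simpa using this
    have hineq : |g u - ∫ α in (-1 : ℝ)..1, (s α * Real.cos (2 * Real.pi * u * α)) * (1 - |α|)| ≤
        g 0 - ∫ α in (-1 : ℝ)..1, s α * (1 - |α|) := by
      refine le_of_tendsto_of_tendsto (((lim_val g u).sub (hlim u)).abs)
        ((lim_val g 0).sub hl0) ?_
      filter_upwards [eventually_gt_atTop 0] with n hn
      have hn' : (0 : ℝ) < n := by exact_mod_cast hn
      have hFi : Integrable (FT g n) :=
        (FT_cont hc n).integrable_of_hasCompactSupport (FT_supp g hn')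
      exact PT_compare (FT_cont hc n) hFi (FT_even hev n) (FT_bound hpd' hev n)
        (fun α => pos_full hc hev hpd' hn' α) hsc hs0 hs1 u
    -- comparison with the tent
    have i1 : IntervalIntegrable (fun α => s α * (1 - |α|)) volume (-1) 1 :=
      (by fun_prop : Continuous fun α => s α * (1 - |α|)).intervalIntegrable _ _
    have i2 : IntervalIntegrable (fun α : ℝ => (1 - |α|)) volume (-1) 1 :=
      (by fun_prop : Continuous fun α : ℝ => (1 - |α|)).intervalIntegrable _ _
    have i3 : IntervalIntegrable (fun α => (s α * Real.cos (2 * Real.pi * u * α)) * (1 - |α|))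
        volume (-1) 1 :=
      (by fun_prop : Continuous fun α =>
        (s α * Real.cos (2 * Real.pi * u * α)) * (1 - |α|)).intervalIntegrable _ _
    have i4 : IntervalIntegrable (fun α => Real.cos (2 * Real.pi * u * α) * (1 - |α|))
        volume (-1) 1 :=
      (by fun_prop : Continuous fun α =>
        Real.cos (2 * Real.pi * u * α) * (1 - |α|)).intervalIntegrable _ _
    have hb : ∀ α ∈ Set.Icc (-1 : ℝ) 1, 0 ≤ (1 - s α) * (1 - |α|) ∧
        (1 - s α) * (1 - |α|) ≤ 1 - κ' := by
      intro α hα
      have ha := abs_le.2 hα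
      refine ⟨mul_nonneg (by linarith [hs1 α]) (by linarith), ?_⟩
      rcases le_or_gt |α| κ' with h | h
      · rw [hso α h]; simp; linarith
      · nlinarith [hs0 α, hs1 α]
    have hA : 1 - ∫ α in (-1 : ℝ)..1, s α * (1 - |α|) ≤ 2 * (1 - κ') := by
      have e0 : 1 - ∫ α in (-1 : ℝ)..1, s α * (1 - |α|) =
          ∫ α in (-1 : ℝ)..1, ((1 - |α|) - s α * (1 - |α|)) := by
        rw [intervalIntegral.integral_sub i2 i1, tent_one]
      rw [e0]
      have hle := intervalIntegral.integral_mono_on (a := (-1 : ℝ)) (b := 1) (by norm_num)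
        (i2.sub i1) (intervalIntegrable_const (c := 1 - κ')) (fun α hα => by
          show (1 - |α|) - s α * (1 - |α|) ≤ 1 - κ'
          have := (hb α hα).2
          linarith)
      refine hle.trans (le_of_eq ?_)
      rw [intervalIntegral.integral_const]
      norm_num
    have hB : |sn u ^ 2 - ∫ α in (-1 : ℝ)..1, (s α * Real.cos (2 * Real.pi * u * α)) * (1 - |α|)| ≤
        2 * (1 - κ') := by
      rw [← tent_val u, ← intervalIntegral.integral_sub i4 i3, ← Real.norm_eq_abs]
      refine (intervalIntegral.norm_integral_le_of_norm_le_const (C := 1 - κ') fun α hα => ?_).trans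
        (le_of_eq ?_)
      · rw [Set.uIoc_of_le (by norm_num)] at hα
        have hb' := hb α ⟨hα.1.le, hα.2⟩
        have e1 : Real.cos (2 * Real.pi * u * α) * (1 - |α|) -
            (s α * Real.cos (2 * Real.pi * u * α)) * (1 - |α|) =
            ((1 - s α) * (1 - |α|)) * Real.cos (2 * Real.pi * u * α) := by ring
        rw [e1, Real.norm_eq_abs, abs_mul, abs_of_nonneg hb'.1]
        calc (1 - s α) * (1 - |α|) * |Real.cos (2 * Real.pi * u * α)|
            ≤ (1 - s α) * (1 - |α|) * 1 :=
              mul_le_mul_of_nonneg_left (Real.abs_cos_le_one _) hb'.1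
          _ ≤ 1 - κ' := by rw [mul_one]; exact hb'.2
      · norm_num
        ring
    have h5 := abs_sub_le (g u) (∫ α in (-1 : ℝ)..1, (s α * Real.cos (2 * Real.pi * u * α)) *
      (1 - |α|)) (sn u ^ 2)
    rw [abs_sub_comm (∫ α in (-1 : ℝ)..1, (s α * Real.cos (2 * Real.pi * u * α)) *
      (1 - |α|)) (sn u ^ 2)] at h5
    linarith
  have h6 : |g u - sn u ^ 2| ≤ 0 := by
    refine le_of_forall_pos_le_add fun ε hε => ?_
    have h7 := key (max (1 / 2) (1 - ε / 4)) (by positivity) (max_lt (by norm_num) (by linarith))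
    have h8 := le_max_right (1 / 2 : ℝ) (1 - ε / 4)
    linarith
  have h9 := abs_nonpos_iff.1 h6
  linarith

end Pool.Agent.Y474.SR.Boch
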