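import Pool.Agent.Y748.SR.Stm

/-!
Project SR, the double induction on the distances (S_DI).  (helper474, for helper748.)
-/

open Finset Filter Topology MeasureTheory

set_option autoImplicit false
set_option linter.all false

namespace Pool.Agent.Y474.SR

open Pool.Agent.Y748.SR

theorem sn_even (u : ℝ) : sn (-u) = sn u := by
  unfold sn
  rw [mul_neg, Real.sinc_neg]

theorem sn_comm (x y : ℝ) : sn (x - y) = sn (y - x) := by
  rw [← sn_even, neg_sub]

theorem sn_mul (u : ℝ) : sn u * u = Real.sin (Real.pi * u) / Real.pi := by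
  unfold sn
  rcases eq_or_ne u 0 with h | h
  · rw [h]; simp
  · rw [Real.sinc_of_ne_zero (mul_ne_zero Real.pi_ne_zero h)]
    field_simp

theorem sn_ne {u : ℝ} (h : ∀ n : ℤ, u ≠ n) : sn u ≠ 0 := by
  intro h0
  have h1 := sn_mul u
  rw [h0, zero_mul] at h1
  have h2 : Real.sin (Real.pi * u) = 0 := by
    rcases div_eq_zero_iff.1 h1.symm with h3 | h3
    · exact h3
    · exact absurd h3 Real.pi_ne_zero
  obtain ⟨n, hn⟩ := Real.sin_eq_zero_iff.1 h2
  apply h n
  have := mul_right_cancel₀ Real.pi_ne_zero (hn.trans (mul_comm _ _))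
  exact this.symm

theorem ni_symm {x y : ℝ} (h : NI x y) : NI y x := by
  intro n hn
  apply h (-n)
  push_cast
  linarith

theorem ni_add {x y : ℝ} (h : NI x y) (k : ℤ) : NI x (y + k) := by
  intro n hn
  apply h (n + k)
  push_cast
  linarith

theorem ni_add' {x y : ℝ} (h : NI x y) (k : ℤ) : NI (x + k) y := ni_symm (ni_add (ni_symm h) k)

theorem ni_ne {x y : ℝ} (h : NI x y) : x - y ≠ 0 := by
  intro h0
  apply h 0
  rw [h0]
  simp

/-- the difference -/
noncomputable def E (τ : ℝ → ℝ → ℝ → ℝ) (x y z : ℝ) : ℝ :=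
  2 * (sn (x - y) * sn (y - z) * sn (x - z)) - τ x y z

section

variable {τ : ℝ → ℝ → ℝ → ℝ} (h1 : ∀ x y z, τ x y z = τ y x z)
  (h2 : ∀ x y z, τ x y z = τ x z y)
  (h3 : ∀ x y z, NI x y → NI y z → NI x z →
    |τ x y z| ≤ 2 * |sn (x - y) * sn (y - z) * sn (x - z)|)
  (h4 : ∀ x y z, NI x y → NI y z → NI x z →
    HasSum (fun n : ℤ => τ x y (z + n)) (2 * sn (x - y) ^ 2))

include h1 in
theorem E_swap (x y z : ℝ) : E τ x y z = E τ y x z := by
  unfold E
  rw [h1 x y z, sn_comm x y]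
  ring

include h2 in
theorem E_swap' (x y z : ℝ) : E τ x y z = E τ x z y := by
  unfold E
  rw [h2 x y z, sn_comm y z]
  ring

include h3 in
theorem E_sign {x y z : ℝ} (hxy : NI x y) (hyz : NI y z) (hxz : NI x z) :
    0 ≤ E τ x y z * (sn (x - y) * sn (y - z) * sn (x - z)) := by
  have h := h3 x y z hxy hyz hxz
  unfold E
  set p := sn (x - y) * sn (y - z) * sn (x - z) with hp
  set t := τ x y z with ht
  have e1 : (2 * p - t) * p = 2 * (|p| * |p|) - t * p := by
    rw [abs_mul_abs_self]; ring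
  rw [e1]
  have e2 : t * p ≤ |t| * |p| := by
    rw [← abs_mul]; exact le_abs_self _
  have e3 : |t| * |p| ≤ (2 * |p|) * |p| := mul_le_mul_of_nonneg_right h (abs_nonneg p)
  linarith

theorem kappa (x y z : ℝ) (n : ℤ) :
    sn (x - y) * sn (y - (z + n)) * sn (x - (z + n)) * ((x - (z + n)) * (y - (z + n))) =
      sn (x - y) * (Real.sin (Real.pi * (y - z)) / Real.pi) *
        (Real.sin (Real.pi * (x - z)) / Real.pi) := by
  have e : ∀ u : ℝ, Real.sin (Real.pi * (u - (z + n))) =
      (-1) ^ n * Real.sin (Real.pi * (u - z)) := by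
    intro u
    have : Real.pi * (u - (z + n)) = Real.pi * (u - z) - n * Real.pi := by ring
    rw [this, Real.sin_sub_int_mul_pi]
  have e1 := sn_mul (y - (z + n))
  have e2 := sn_mul (x - (z + n))
  rw [e] at e1 e2
  have e3 : sn (x - y) * sn (y - (z + n)) * sn (x - (z + n)) * ((x - (z + n)) * (y - (z + n))) =
      sn (x - y) * (sn (y - (z + n)) * (y - (z + n))) * (sn (x - (z + n)) * (x - (z + n))) := by
    ring
  rw [e3, e1, e2]
  have e4 : ((-1 : ℝ) ^ n) * ((-1 : ℝ) ^ n) = 1 := by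
    rw [← mul_zpow]; simp
  calc sn (x - y) * ((-1) ^ n * Real.sin (Real.pi * (y - z)) / Real.pi) *
        ((-1) ^ n * Real.sin (Real.pi * (x - z)) / Real.pi)
      = (((-1 : ℝ) ^ n) * ((-1 : ℝ) ^ n)) * (sn (x - y) *
        (Real.sin (Real.pi * (y - z)) / Real.pi) *
        (Real.sin (Real.pi * (x - z)) / Real.pi)) := by ring
    _ = _ := by rw [e4, one_mul]

include h3 h4 in
theorem star (hL : S_LAT) {x y z : ℝ} (hxy : NI x y) (hyz : NI y z) (hxz : NI x z)
    (h : ∀ n : ℤ, (x - (z + n)) * (y - (z + n)) < 0 → E τ x y (z + n) = 0) :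
    E τ x y z = 0 := by
  set κ := sn (x - y) * (Real.sin (Real.pi * (y - z)) / Real.pi) *
        (Real.sin (Real.pi * (x - z)) / Real.pi) with hκ
  have hκ0 : κ ≠ 0 := by
    rw [hκ, ← kappa x y z 0]
    have hyz0 := ni_add hyz 0
    have hxz0 := ni_add hxz 0
    exact mul_ne_zero (mul_ne_zero (mul_ne_zero (sn_ne hxy) (sn_ne hyz0)) (sn_ne hxz0))
      (mul_ne_zero (ni_ne hxz0) (ni_ne hyz0))
  have hs : HasSum (fun n : ℤ => κ * E τ x y (z + n)) 0 := by
    have a1 := hL x y z hxz hyz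
    have a2 := h4 x y z hxy hyz hxz
    have a3 := ((a1.mul_left (2 * sn (x - y))).sub a2).mul_left κ
    have e0 : κ * (2 * sn (x - y) * sn (x - y) - 2 * sn (x - y) ^ 2) = 0 := by ring
    rw [e0] at a3
    have e : (fun n : ℤ => κ * E τ x y (z + n)) = fun n : ℤ =>
        κ * (2 * sn (x - y) * (sn (x - (z + n)) * sn (y - (z + n))) - τ x y (z + n)) := by
      funext n
      unfold E
      ring
    rw [e]
    exact a3
  have hnn : ∀ n : ℤ, 0 ≤ κ * E τ x y (z + n) := by
    intro n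
    have hyzn := ni_add hyz n
    have hxzn := ni_add hxz n
    rcases lt_trichotomy ((x - (z + n)) * (y - (z + n))) 0 with hlt | heq | hgt
    · rw [h n hlt, mul_zero]
    · exact absurd heq (mul_ne_zero (ni_ne hxzn) (ni_ne hyzn))
    · rw [hκ, ← kappa x y z n]
      have := E_sign h3 hxy hyzn hxzn
      have e1 : sn (x - y) * sn (y - (z + ↑n)) * sn (x - (z + ↑n)) *
          ((x - (z + ↑n)) * (y - (z + ↑n))) * E τ x y (z + ↑n) =
          (E τ x y (z + ↑n) * (sn (x - y) * sn (y - (z + ↑n)) * sn (x - (z + ↑n)))) *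
          ((x - (z + ↑n)) * (y - (z + ↑n))) := by ring
      rw [e1]
      exact mul_nonneg this hgt.le
  have h0 := (hasSum_zero_iff_of_nonneg hnn).1 hs
  have h5 := congrFun h0 0
  simp only [Int.cast_zero, add_zero, Pi.zero_apply] at h5
  exact (mul_eq_zero.1 h5).resolve_left hκ0

include h2 h3 h4 in
/-- distance less than one -/
theorem base (hL : S_LAT) {x y z : ℝ} (hxy : NI x y) (hyz : NI y z) (hxz : NI x z)
    (hd : |x - y| < 1) : E τ x y z = 0 := by
  refine star h3 h4 hL hxy hyz hxz fun n hn => ?_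
  have hyzn := ni_add hyz n
  have hxzn := ni_add hxz n
  rw [E_swap' h2]
  refine star h3 h4 hL hxzn (ni_symm hyzn) hxy fun k hk => ?_
  exfalso
  rw [abs_lt] at hd
  rcases mul_neg_iff.1 hn with ⟨a1, a2⟩ | ⟨a1, a2⟩
  · -- y < z_n < x
    rcases mul_neg_iff.1 hk with ⟨b1, b2⟩ | ⟨b1, b2⟩
    · have c1 : (0 : ℝ) < k := by linarith
      have c2 : (1 : ℝ) ≤ k := by
        have : (0 : ℤ) < k := by exact_mod_cast c1
        exact_mod_cast this
      linarith [hd.2]
    · linarith
  · rcases mul_neg_iff.1 hk with ⟨b1, b2⟩ | ⟨b1, b2⟩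
    · linarith
    · have c1 : (k : ℝ) < 0 := by linarith
      have c2 : (k : ℝ) ≤ -1 := by
        have : k < (0 : ℤ) := by exact_mod_cast c1
        have : k ≤ -1 := by omega
        exact_mod_cast this
      linarith [hd.1]

include h1 h2 h3 h4 in
theorem step (hL : S_LAT) (k : ℕ) : ∀ {x y z : ℝ}, NI x y → NI y z → NI x z →
    |x - y| < 2 ^ k → E τ x y z = 0 := by
  induction k with
  | zero =>
    intro x y z hxy hyz hxz hd
    rw [pow_zero] at hd
    exact base h2 h3 h4 hL hxy hyz hxz hd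
  | succ k ih =>
    intro x y z hxy hyz hxz hd
    refine star h3 h4 hL hxy hyz hxz fun n hn => ?_
    have hyzn := ni_add hyz n
    have hxzn := ni_add hxz n
    have hor : |x - (z + n)| < 2 ^ k ∨ |y - (z + n)| < 2 ^ k := by
      by_contra hcon
      push Not at hcon
      obtain ⟨g1, g2⟩ := hcon
      have e1 : |x - y| = |x - (z + n)| + |y - (z + n)| := by
        rcases mul_neg_iff.1 hn with ⟨a1, a2⟩ | ⟨a1, a2⟩
        · rw [abs_of_pos a1, abs_of_neg a2, abs_of_pos (by linarith)]; ring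
        · rw [abs_of_neg a1, abs_of_pos a2, abs_of_neg (by linarith)]; ring
      rw [e1, pow_succ] at hd
      linarith
    rcases hor with h | h
    · rw [E_swap' h2]
      exact ih hxzn (ni_symm hyzn) hxy h
    · rw [E_swap h1, E_swap' h2]
      exact ih hyzn (ni_symm hxzn) (ni_symm hxy) h

end

theorem t_DI : S_LAT → S_DI := by
  intro hL τ h1 h2 h3 h4 x y z hxy hyz hxz
  obtain ⟨k, hk⟩ := pow_unbounded_of_one_lt |x - y| (one_lt_two : (1 : ℝ) < 2)
  have h := step h1 h2 h3 h4 hL k hxy hyz hxz hk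
  unfold E at h
  linarith

end Pool.Agent.Y474.SR
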